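import Pool.Agent.Y14.SC.Cap

set_option autoImplicit false
set_option linter.unusedSectionVars false

/-! # Linear triple systems with small independence number

On every non-vertical line of the affine plane over a field of characteristic three we place a
randomly relabelled copy of the triples with sum zero. -/

namespace Pool.Agent.Y14.SC

open Finset

variable {F : Type} [Field F] [Fintype F] [DecidableEq F]

/-- the point with first coordinate `x` on the line of slope `l.1` and intercept `l.2` -/
def pt (l : F × F) (x : F) : F × F := (x, l.1 * x + l.2)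

/-- the triples -/
def sys (π : F × F → Equiv.Perm F) : Set (Finset (F × F)) :=
  {T | ∃ l : F × F, ∃ x y z : F, x ≠ y ∧ x ≠ z ∧ y ≠ z ∧ π l x + π l y + π l z = 0 ∧
    T = {pt l x, pt l y, pt l z}}

lemma pt_inj {l : F × F} {x y : F} (h : pt l x = pt l y) : x = y := congrArg Prod.fst h

lemma sys_card {π : F × F → Equiv.Perm F} {T : Finset (F × F)} (hT : T ∈ sys π) : T.card = 3 := by
  obtain ⟨l, x, y, z, hxy, hxz, hyz, -, rfl⟩ := hT
  rw [card_eq_three]
  exact ⟨_, _, _, fun h => hxy (pt_inj h), fun h => hxz (pt_inj h), fun h => hyz (pt_inj h), rfl⟩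

/-- normal form of a triple through two given points -/
lemma sys_third {π : F × F → Equiv.Perm F} {T : Finset (F × F)} (hT : T ∈ sys π) {a b : F × F}
    (hab : a ≠ b) (ha : a ∈ T) (hb : b ∈ T) :
    ∃ l : F × F, ∃ z : F, a = pt l a.1 ∧ b = pt l b.1 ∧ a.1 ≠ b.1 ∧
      π l z = -(π l a.1 + π l b.1) ∧ T = {a, b, pt l z} := by
  obtain ⟨l, x, y, z, hxy, hxz, hyz, hs, rfl⟩ := hT
  simp only [mem_insert, mem_singleton] at ha hb
  have e1 : π l x = -(π l y + π l z) := by rw [eq_neg_iff_add_eq_zero, ← hs]; ring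
  have e2 : π l y = -(π l x + π l z) := by rw [eq_neg_iff_add_eq_zero, ← hs]; ring
  have e3 : π l z = -(π l x + π l y) := by rw [eq_neg_iff_add_eq_zero, ← hs]; ring
  rcases ha with rfl | rfl | rfl <;> rcases hb with rfl | rfl | rfl
  · exact absurd rfl hab
  · exact ⟨l, z, rfl, rfl, hxy, e3, rfl⟩
  · refine ⟨l, y, rfl, rfl, hxz, e2, ?_⟩
    ext t; simp only [mem_insert, mem_singleton]; tauto
  · refine ⟨l, z, rfl, rfl, hxy.symm, ?_, ?_⟩
    · rw [e3]; simp only [pt]; ring
    · ext t; simp only [mem_insert, mem_singleton]; tauto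
  · exact absurd rfl hab
  · refine ⟨l, x, rfl, rfl, hyz, e1, ?_⟩
    ext t; simp only [mem_insert, mem_singleton]; tauto
  · refine ⟨l, y, rfl, rfl, hxz.symm, ?_, ?_⟩
    · rw [e2]; simp only [pt]; ring
    · ext t; simp only [mem_insert, mem_singleton]; tauto
  · refine ⟨l, x, rfl, rfl, hyz.symm, ?_, ?_⟩
    · rw [e1]; simp only [pt]; ring
    · ext t; simp only [mem_insert, mem_singleton]; tauto
  · exact absurd rfl hab

lemma sys_linear (π : F × F → Equiv.Perm F) : ∀ T ∈ sys π, ∀ T' ∈ sys π, ∀ a b : F × F, a ≠ b →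
    a ∈ T → b ∈ T → a ∈ T' → b ∈ T' → T = T' := by
  intro T hT T' hT' a b hab ha hb ha' hb'
  obtain ⟨l, z, h1, h2, h3, h4, h5⟩ := sys_third hT hab ha hb
  obtain ⟨l', z', h1', h2', -, h4', h5'⟩ := sys_third hT' hab ha' hb'
  have e1 : a.2 = l.1 * a.1 + l.2 := congrArg Prod.snd h1
  have e2 : b.2 = l.1 * b.1 + l.2 := congrArg Prod.snd h2
  have e1' : a.2 = l'.1 * a.1 + l'.2 := congrArg Prod.snd h1'
  have e2' : b.2 = l'.1 * b.1 + l'.2 := congrArg Prod.snd h2'
  have hm : l.1 = l'.1 := by
    have : (l.1 - l'.1) * (a.1 - b.1) = 0 := by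
      have : l.1 * a.1 + l.2 - (l.1 * b.1 + l.2) = l'.1 * a.1 + l'.2 - (l'.1 * b.1 + l'.2) := by
        rw [← e1, ← e2, ← e1', ← e2']
      linear_combination this
    rcases mul_eq_zero.1 this with h | h
    · exact sub_eq_zero.1 h
    · exact absurd (sub_eq_zero.1 h) h3
  have hb2 : l.2 = l'.2 := by
    have : l.1 * a.1 + l.2 = l'.1 * a.1 + l'.2 := by rw [← e1, ← e1']
    rw [hm] at this
    exact add_left_cancel this
  have hl : l = l' := Prod.ext hm hb2
  subst hl
  have hz : z = z' := (π l).injective (by rw [h4, h4'])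
  rw [h5, h5', hz]

/-- the part of `S` on a line, by first coordinates -/
def slice (S : Finset (F × F)) (l : F × F) : Finset F := univ.filter fun x => pt l x ∈ S

lemma capOn_of_free {π : F × F → Equiv.Perm F} {S : Finset (F × F)}
    (h : ∀ T ∈ sys π, ¬ T ⊆ S) (l : F × F) : CapOn (slice S l) (π l) := by
  intro x hx y hy z hz hxy hxz hyz hs
  refine h {pt l x, pt l y, pt l z} ⟨l, x, y, z, hxy, hxz, hyz, hs, rfl⟩ ?_
  intro t ht
  simp only [mem_insert, mem_singleton] at ht
  rcases ht with rfl | rfl | rfl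
  · exact (mem_filter.1 hx).2
  · exact (mem_filter.1 hy).2
  · exact (mem_filter.1 hz).2

lemma sum_slice (S : Finset (F × F)) :
    ∑ l : F × F, ((slice S l).card : ℝ) = Fintype.card F * S.card := by
  have h1 : ∀ m : F, ∑ b : F, (slice S (m, b)).card = S.card := by
    intro m
    have : ∀ b : F, (slice S (m, b)).card = (S.filter fun u => u.2 - m * u.1 = b).card := by
      intro b
      apply card_bij (fun x _ => pt (m, b) x)
      · intro x hx
        rw [mem_filter]
        refine ⟨(mem_filter.1 hx).2, ?_⟩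
        simp [pt]
      · intro x _ y _ h
        exact pt_inj h
      · intro u hu
        obtain ⟨hu1, hu2⟩ := mem_filter.1 hu
        have e : pt (m, b) u.1 = u := by
          apply Prod.ext
          · rfl
          · simp only [pt]; rw [← hu2]; ring
        exact ⟨u.1, by rw [slice, mem_filter]; exact ⟨mem_univ _, by rw [e]; exact hu1⟩, e⟩
    rw [sum_congr rfl fun b _ => this b]
    exact (card_eq_sum_card_fiberwise (f := fun u : F × F => u.2 - m * u.1) (t := univ)
      (fun _ _ => mem_univ _)).symm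
  have h2 : ∑ l : F × F, (slice S l).card = Fintype.card F * S.card := by
    rw [Fintype.sum_prod_type]
    rw [sum_congr rfl fun m _ => h1 m, sum_const, card_univ, smul_eq_mul]
  exact_mod_cast h2

/-- few choices make `S` free of triples -/
lemma prod_le [CharP F 3] (S : Finset (F × F)) :
    ∏ l : F × F, ((capPerms (slice S l)).card : ℝ) ≤
      ((Fintype.card F).factorial : ℝ) ^ (Fintype.card F ^ 2) *
        Real.exp (-((S.card : ℝ) * (S.card - 3 * Fintype.card F) / (2 * Fintype.card F))) := by
  have hq : (0 : ℝ) < Fintype.card F := by exact_mod_cast Fintype.card_pos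
  have h1 : ∏ l : F × F, ((capPerms (slice S l)).card : ℝ) ≤
      ∏ l : F × F, (((Fintype.card F).factorial : ℝ) *
        Real.exp (-(((slice S l).card : ℝ) * ((slice S l).card - 3) / (2 * Fintype.card F)))) :=
    prod_le_prod (fun _ _ => by positivity) (fun l _ => card_capPerms_le _)
  refine h1.trans ?_
  rw [prod_mul_distrib, prod_const, card_univ, Fintype.card_prod, ← Real.exp_sum, ← pow_two]
  apply mul_le_mul_of_nonneg_left _ (by positivity)
  rw [Real.exp_le_exp, sum_neg_distrib, neg_le_neg_iff, ← sum_div]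
  apply div_le_div_of_nonneg_right _ (by positivity)
  have h2 : ∑ l : F × F, ((slice S l).card : ℝ) * ((slice S l).card - 3) =
      ∑ l : F × F, ((slice S l).card : ℝ) ^ 2 - 3 * ∑ l : F × F, ((slice S l).card : ℝ) := by
    rw [mul_sum, ← sum_sub_distrib]
    exact sum_congr rfl fun _ _ => by ring
  have h3 := sum_slice S
  have h4 := sq_sum_le_card_mul_sum_sq (s := (univ : Finset (F × F)))
    (f := fun l => ((slice S l).card : ℝ))
  rw [h3, card_univ, Fintype.card_prod] at h4
  push_cast at h4
  have h5 : (S.card : ℝ) ^ 2 ≤ ∑ l : F × F, ((slice S l).card : ℝ) ^ 2 := by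
    have h6 : (Fintype.card F : ℝ) * Fintype.card F * (S.card : ℝ) ^ 2 ≤
        (Fintype.card F : ℝ) * Fintype.card F * ∑ l : F × F, ((slice S l).card : ℝ) ^ 2 := by
      calc _ = ((Fintype.card F : ℝ) * S.card) ^ 2 := by ring
        _ ≤ _ := h4
    exact le_of_mul_le_mul_left h6 (by positivity)
  rw [h2, h3]
  nlinarith

/-- **The random system.**  Over a field with `q` elements, of characteristic three, some choice
of the relabellings gives a linear triple system on the `q ^ 2` points in which every set without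
a triple has at most `q (3 + 4 log q)` elements. -/
theorem exists_sys [CharP F 3] : ∃ π : F × F → Equiv.Perm F, ∀ S : Finset (F × F),
    (∀ T ∈ sys π, ¬ T ⊆ S) →
      (S.card : ℝ) ≤ Fintype.card F * (3 + 4 * Real.log (Fintype.card F)) := by
  classical
  by_contra hcon
  push Not at hcon
  have hqN : 1 < Fintype.card F := Fintype.one_lt_card
  obtain ⟨q, hqd⟩ : ∃ q : ℝ, q = Fintype.card F := ⟨_, rfl⟩
  have hq : 1 < q := by rw [hqd]; exact_mod_cast hqN
  have hlog : 0 < Real.log q := Real.log_pos hq
  rw [← hqd] at hcon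
  set s : ℕ := ⌊q * (3 + 4 * Real.log q)⌋₊ + 1 with hs
  have hs1 : q * (3 + 4 * Real.log q) < s := by
    rw [hs]; push_cast; exact Nat.lt_floor_add_one _
  have hspos : (0 : ℝ) < s := lt_trans (by positivity) hs1
  have hall : ∀ π : F × F → Equiv.Perm F, ∃ S : Finset (F × F), S.card = s ∧
      ∀ l, CapOn (slice S l) (π l) := by
    intro π
    obtain ⟨S, hS1, hS2⟩ := hcon π
    have hsS : s ≤ S.card := by
      rw [hs]
      have : ⌊q * (3 + 4 * Real.log q)⌋₊ < S.card := by
        rw [Nat.floor_lt (by positivity)]; exact hS2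
      omega
    obtain ⟨S', hS'1, hS'2⟩ := exists_subset_card_eq hsS
    exact ⟨S', hS'2, capOn_of_free fun T hT hTS => hS1 T hT (hTS.trans hS'1)⟩
  -- counting
  have hcover : (univ : Finset (F × F → Equiv.Perm F)) ⊆
      (powersetCard s (univ : Finset (F × F))).biUnion
        fun S => Fintype.piFinset fun l => capPerms (slice S l) := by
    intro π _
    obtain ⟨S, h1, h2⟩ := hall π
    rw [mem_biUnion]
    refine ⟨S, mem_powersetCard.2 ⟨subset_univ _, h1⟩, ?_⟩
    rw [Fintype.mem_piFinset]
    exact fun l => mem_capPerms.2 (h2 l)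
  have hcard := (card_le_card hcover).trans card_biUnion_le
  rw [card_univ, Fintype.card_fun, Fintype.card_perm, Fintype.card_prod] at hcard
  simp only [Fintype.card_piFinset] at hcard
  have hcardR : ((Fintype.card F).factorial : ℝ) ^ (Fintype.card F * Fintype.card F) ≤
      ∑ S ∈ powersetCard s (univ : Finset (F × F)),
        ∏ l : F × F, ((capPerms (slice S l)).card : ℝ) := by exact_mod_cast hcard
  have hbd : ∀ S ∈ powersetCard s (univ : Finset (F × F)),
      ∏ l : F × F, ((capPerms (slice S l)).card : ℝ) ≤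
        ((Fintype.card F).factorial : ℝ) ^ (Fintype.card F ^ 2) *
          Real.exp (-((s : ℝ) * (s - 3 * q) / (2 * q))) := by
    intro S hS
    have := prod_le S
    rw [(mem_powersetCard.1 hS).2, ← hqd] at this
    exact this
  have h3 := hcardR.trans (sum_le_sum hbd)
  rw [sum_const, nsmul_eq_mul, card_powersetCard, card_univ, Fintype.card_prod, ← pow_two] at h3
  have hf : (0 : ℝ) < ((Fintype.card F).factorial : ℝ) ^ (Fintype.card F ^ 2) := by positivity
  have h4 : (1 : ℝ) ≤ ((Fintype.card F ^ 2).choose s : ℝ) *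
      Real.exp (-((s : ℝ) * (s - 3 * q) / (2 * q))) := by
    by_contra hlt
    push Not at hlt
    have := mul_lt_mul_of_pos_left hlt hf
    linarith
  have h5 : ((Fintype.card F ^ 2).choose s : ℝ) ≤ Real.exp (2 * s * Real.log q) := by
    have h6 : (Fintype.card F ^ 2).choose s ≤ (Fintype.card F ^ 2) ^ s := Nat.choose_le_pow _ _
    have h7 : ((Fintype.card F ^ 2).choose s : ℝ) ≤ (q ^ 2) ^ s := by
      rw [hqd]; exact_mod_cast h6
    refine h7.trans (le_of_eq ?_)
    rw [← pow_mul, ← Real.exp_log (show (0 : ℝ) < q by linarith), ← Real.exp_nat_mul, Real.log_exp]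
    congr 1
    push_cast
    ring
  have h8 : (1 : ℝ) ≤ Real.exp (2 * s * Real.log q) *
      Real.exp (-((s : ℝ) * (s - 3 * q) / (2 * q))) :=
    h4.trans (mul_le_mul_of_nonneg_right h5 (Real.exp_pos _).le)
  rw [← Real.exp_add] at h8
  have h9 : 0 ≤ 2 * s * Real.log q + -((s : ℝ) * (s - 3 * q) / (2 * q)) := by
    by_contra hlt
    push Not at hlt
    have := Real.exp_lt_exp.2 hlt
    rw [Real.exp_zero] at this
    linarith
  have h10 : (s : ℝ) * (s - 3 * q) / (2 * q) = s * ((s - 3 * q) / (2 * q)) := by ring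
  have h11 : 2 * Real.log q < (s - 3 * q) / (2 * q) := by
    rw [lt_div_iff₀ (by linarith)]
    nlinarith
  rw [h10] at h9
  nlinarith

end Pool.Agent.Y14.SC
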