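import Mathlib

set_option autoImplicit false
set_option linter.unusedSectionVars false

/-! # Random relabellings of the lines of a ternary affine space: few of them make a given set
free of lines. -/

namespace Pool.Agent.Y14.SC

open Finset

variable {F : Type} [Field F] [Fintype F] [DecidableEq F]

/-- after relabelling by `σ` the set `A` contains no three distinct elements of sum zero -/
def CapOn (A : Finset F) (σ : Equiv.Perm F) : Prop :=
  ∀ x ∈ A, ∀ y ∈ A, ∀ z ∈ A, x ≠ y → x ≠ z → y ≠ z → σ x + σ y + σ z ≠ 0

open Classical in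
/-- the relabellings after which `A` is free of zero-sum triples -/
noncomputable def capPerms (A : Finset F) : Finset (Equiv.Perm F) :=
  univ.filter fun σ => CapOn A σ

lemma mem_capPerms {A : Finset F} {σ : Equiv.Perm F} : σ ∈ capPerms A ↔ CapOn A σ := by
  simp [capPerms]

lemma CapOn.mono {A B : Finset F} {σ : Equiv.Perm F} (h : CapOn B σ) (hAB : A ⊆ B) :
    CapOn A σ := fun x hx y hy z hz => h x (hAB hx) y (hAB hy) z (hAB hz)

lemma eq_of_char3 [CharP F 3] {a b : F} (h : a + a + b = 0) : a = b := by
  have h3 : (3 : F) = 0 := by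
    have := CharP.cast_eq_zero F 3
    exact_mod_cast this
  have h4 : a + a + a = 0 := by
    have : a + a + a = 3 * a := by ring
    rw [this, h3, zero_mul]
  have h5 : a + a + a = a + a + b := by rw [h4, h]
  exact add_left_cancel h5

/-- the swap argument -/
lemma card_capPerms_swap {A : Finset F} {x y : F} (hx : x ∉ A) (hy : y ∉ A) :
    (capPerms (insert y A)).card = (capPerms (insert x A)).card := by
  classical
  apply Finset.card_bij (fun σ _ => σ * Equiv.swap x y)
  · intro σ hσ
    rw [mem_capPerms] at hσ ⊢
    have hA : ∀ a ∈ A, (σ * Equiv.swap x y) a = σ a := by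
      intro a ha
      rw [Equiv.Perm.mul_apply, Equiv.swap_apply_of_ne_of_ne]
      · rintro rfl; exact hx ha
      · rintro rfl; exact hy ha
    have hx' : (σ * Equiv.swap x y) x = σ y := by
      rw [Equiv.Perm.mul_apply, Equiv.swap_apply_left]
    -- the map sending x to y and fixing A
    set τ : F → F := fun a => if a = x then y else a with hτ
    have h1 : ∀ a ∈ insert x A, (σ * Equiv.swap x y) a = σ (τ a) := by
      intro a ha
      by_cases h : a = x
      · subst h; simp only [hτ, if_true]; exact hx'
      · rcases mem_insert.1 ha with h' | h'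
        · exact absurd h' h
        · simp only [hτ, if_neg h]; exact hA a h'
    have h2 : ∀ a ∈ insert x A, τ a ∈ insert y A := by
      intro a ha
      by_cases h : a = x
      · subst h; simp [hτ]
      · rcases mem_insert.1 ha with h' | h'
        · exact absurd h' h
        · simp only [hτ, if_neg h]; exact mem_insert_of_mem h'
    have h3 : ∀ a ∈ insert x A, ∀ b ∈ insert x A, a ≠ b → τ a ≠ τ b := by
      intro a ha b hb hab hh
      have e : (σ * Equiv.swap x y) a = (σ * Equiv.swap x y) b := by
        rw [h1 a ha, h1 b hb, hh]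
      exact hab ((σ * Equiv.swap x y).injective e)
    intro a ha b hb c hc hab hac hbc
    rw [h1 a ha, h1 b hb, h1 c hc]
    exact hσ _ (h2 a ha) _ (h2 b hb) _ (h2 c hc) (h3 a ha b hb hab) (h3 a ha c hc hac)
      (h3 b hb c hc hbc)
  · intro σ _ τ _ h
    exact mul_right_cancel h
  · intro σ hσ
    refine ⟨σ * Equiv.swap x y, ?_, ?_⟩
    · rw [mem_capPerms] at hσ ⊢
      have hA : ∀ a ∈ A, (σ * Equiv.swap x y) a = σ a := by
        intro a ha
        rw [Equiv.Perm.mul_apply, Equiv.swap_apply_of_ne_of_ne]
        · rintro rfl; exact hx ha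
        · rintro rfl; exact hy ha
      have hy' : (σ * Equiv.swap x y) y = σ x := by
        rw [Equiv.Perm.mul_apply, Equiv.swap_apply_right]
      set τ : F → F := fun a => if a = y then x else a with hτ
      have h1 : ∀ a ∈ insert y A, (σ * Equiv.swap x y) a = σ (τ a) := by
        intro a ha
        by_cases h : a = y
        · subst h; simp only [hτ, if_true]; exact hy'
        · rcases mem_insert.1 ha with h' | h'
          · exact absurd h' h
          · simp only [hτ, if_neg h]; exact hA a h'
      have h2 : ∀ a ∈ insert y A, τ a ∈ insert x A := by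
        intro a ha
        by_cases h : a = y
        · subst h; simp [hτ]
        · rcases mem_insert.1 ha with h' | h'
          · exact absurd h' h
          · simp only [hτ, if_neg h]; exact mem_insert_of_mem h'
      have h3 : ∀ a ∈ insert y A, ∀ b ∈ insert y A, a ≠ b → τ a ≠ τ b := by
        intro a ha b hb hab hh
        have e : (σ * Equiv.swap x y) a = (σ * Equiv.swap x y) b := by
          rw [h1 a ha, h1 b hb, hh]
        exact hab ((σ * Equiv.swap x y).injective e)
      intro a ha b hb c hc hab hac hbc
      rw [h1 a ha, h1 b hb, h1 c hc]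
      exact hσ _ (h2 a ha) _ (h2 b hb) _ (h2 c hc) (h3 a ha b hb hab) (h3 a ha c hc hac)
        (h3 b hb c hc hbc)
    · rw [mul_assoc, Equiv.swap_mul_self, mul_one]

open Classical in
/-- the possible new elements -/
lemma good_le [CharP F 3] {A : Finset F} {σ : Equiv.Perm F} (hσ : CapOn A σ) (hA : A.Nonempty) :
    ((univ.filter fun y => y ∉ A ∧ CapOn (insert y A) σ).card : ℝ) ≤
      (Fintype.card F : ℝ) - (2 * A.card - 1) := by
  obtain ⟨a0, ha0⟩ := hA
  set N : Finset F := (A.erase a0).image (fun b => σ.symm (-(σ a0 + σ b))) with hN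
  have hNc : N.card = A.card - 1 := by
    rw [hN, card_image_of_injective, card_erase_of_mem ha0]
    intro b c h
    have h1 := σ.symm.injective h
    have h2 := neg_injective h1
    exact σ.injective (add_left_cancel h2)
  have hAN : Disjoint A N := by
    rw [disjoint_left]
    intro c hc hcN
    obtain ⟨b, hb, rfl⟩ := mem_image.1 hcN
    obtain ⟨hb1, hb2⟩ := mem_erase.1 hb
    set c := σ.symm (-(σ a0 + σ b)) with hcdef
    have hsum : σ c + σ a0 + σ b = 0 := by
      rw [hcdef, Equiv.apply_symm_apply]; ring
    have h1 : c ≠ a0 := by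
      intro h
      rw [h] at hsum
      exact hb1 (σ.injective (eq_of_char3 hsum)).symm
    have h2 : c ≠ b := by
      intro h
      rw [h] at hsum
      have : σ b + σ b + σ a0 = 0 := by rw [← hsum]; ring
      exact hb1 (σ.injective (eq_of_char3 this))
    exact hσ c hc a0 ha0 b hb2 h1 h2 hb1.symm hsum
  have hsub : (univ.filter fun y => y ∉ A ∧ CapOn (insert y A) σ) ⊆ univ \ (A ∪ N) := by
    intro y hy
    obtain ⟨-, hyA, hcap⟩ := mem_filter.1 hy
    rw [mem_sdiff, mem_union]
    refine ⟨mem_univ _, ?_⟩
    rintro (h | h)
    · exact hyA h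
    · obtain ⟨b, hb, rfl⟩ := mem_image.1 h
      obtain ⟨hb1, hb2⟩ := mem_erase.1 hb
      set c := σ.symm (-(σ a0 + σ b)) with hcdef
      have hsum : σ c + σ a0 + σ b = 0 := by
        rw [hcdef, Equiv.apply_symm_apply]; ring
      refine hcap c (mem_insert_self _ _) a0 (mem_insert_of_mem ha0) b (mem_insert_of_mem hb2)
        ?_ ?_ hb1.symm hsum
      · rintro h; exact hyA (h ▸ ha0)
      · rintro h; exact hyA (h ▸ hb2)
  have h1 := card_le_card hsub
  have h2 : (univ \ (A ∪ N)).card = Fintype.card F - (A.card + (A.card - 1)) := by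
    rw [card_sdiff_of_subset (subset_univ _), card_univ, card_union_of_disjoint hAN, hNc]
  have h3 : A.card + (A.card - 1) ≤ Fintype.card F := by
    rw [← hNc, ← card_union_of_disjoint hAN, ← card_univ]
    exact card_le_card (subset_univ _)
  have h4 : 1 ≤ A.card := card_pos.2 ⟨a0, ha0⟩
  rw [h2] at h1
  have h5 : ((univ.filter fun y => y ∉ A ∧ CapOn (insert y A) σ).card : ℝ) ≤
      ((Fintype.card F - (A.card + (A.card - 1)) : ℕ) : ℝ) := by exact_mod_cast h1
  refine h5.trans (le_of_eq ?_)
  rw [Nat.cast_sub h3, Nat.cast_add, Nat.cast_sub h4]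
  push_cast
  ring

/-- one more element -/
lemma capPerms_step [CharP F 3] {A : Finset F} {x : F} (hx : x ∉ A) (hA : A.Nonempty) :
    ((Fintype.card F : ℝ) - A.card) * (capPerms (insert x A)).card ≤
      ((Fintype.card F : ℝ) - (2 * A.card - 1)) * (capPerms A).card := by
  classical
  have h1 : ∑ y ∈ univ.filter (fun y => y ∉ A), ((capPerms (insert y A)).card : ℝ) =
      ((Fintype.card F : ℝ) - A.card) * (capPerms (insert x A)).card := by
    have : ∀ y ∈ univ.filter (fun y => y ∉ A), ((capPerms (insert y A)).card : ℝ) =
        (capPerms (insert x A)).card := by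
      intro y hy
      rw [card_capPerms_swap hx (mem_filter.1 hy).2]
    rw [sum_congr rfl this, sum_const, nsmul_eq_mul]
    congr 1
    have h2 : (univ.filter (fun y => y ∉ A)).card = Fintype.card F - A.card := by
      rw [← card_univ, ← card_sdiff_of_subset (subset_univ A)]
      congr 1
      ext y; simp
    rw [h2, Nat.cast_sub (card_le_univ A)]
  rw [← h1]
  have h2 : ∀ y ∈ univ.filter (fun y => y ∉ A), ((capPerms (insert y A)).card : ℝ) =
      ∑ σ ∈ capPerms A, if CapOn (insert y A) σ then (1 : ℝ) else 0 := by
    intro y _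
    rw [← sum_filter, sum_const, nsmul_eq_mul, mul_one]
    congr 2
    ext σ
    rw [mem_filter, mem_capPerms, mem_capPerms]
    exact ⟨fun h => ⟨h.mono (subset_insert _ _), h⟩, fun h => h.2⟩
  rw [sum_congr rfl h2, sum_comm]
  have h3 : ∀ σ ∈ capPerms A, (∑ y ∈ univ.filter (fun y => y ∉ A),
      if CapOn (insert y A) σ then (1 : ℝ) else 0) ≤ (Fintype.card F : ℝ) - (2 * A.card - 1) := by
    intro σ hσ
    rw [mem_capPerms] at hσ
    refine le_trans (le_of_eq ?_) (good_le hσ hA)
    rw [← sum_filter, sum_const, nsmul_eq_mul, mul_one, filter_filter]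
  refine (sum_le_sum h3).trans (le_of_eq ?_)
  rw [sum_const, nsmul_eq_mul, mul_comm]

/-- the number of relabellings after which `A` has no zero-sum triple -/
theorem card_capPerms_le [CharP F 3] (A : Finset F) :
    ((capPerms A).card : ℝ) ≤ (Fintype.card F).factorial *
      Real.exp (-((A.card : ℝ) * (A.card - 3) / (2 * Fintype.card F))) := by
  classical
  have hq : (0 : ℝ) < Fintype.card F := by exact_mod_cast Fintype.card_pos
  induction A using Finset.induction_on with
  | empty =>
    simp only [card_empty, Nat.cast_zero, zero_mul, zero_div, neg_zero, Real.exp_zero, mul_one]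
    have : (capPerms (∅ : Finset F)).card ≤ (univ : Finset (Equiv.Perm F)).card :=
      card_le_card (subset_univ _)
    rw [card_univ, Fintype.card_perm] at this
    exact_mod_cast this
  | insert x A hx ih =>
    rw [card_insert_of_notMem hx]
    rcases A.eq_empty_or_nonempty with rfl | hA
    · have h1 : (capPerms (insert x (∅ : Finset F))).card ≤
          (univ : Finset (Equiv.Perm F)).card := card_le_card (subset_univ _)
      rw [card_univ, Fintype.card_perm] at h1
      have h2 : ((capPerms (insert x (∅ : Finset F))).card : ℝ) ≤ (Fintype.card F).factorial := by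
        exact_mod_cast h1
      refine h2.trans ?_
      have h3 : (1 : ℝ) ≤ Real.exp (-((((∅ : Finset F).card + 1 : ℕ) : ℝ) *
          (((∅ : Finset F).card + 1 : ℕ) - 3) / (2 * Fintype.card F))) := by
        apply Real.one_le_exp
        simp only [card_empty, zero_add, Nat.cast_one, one_mul]
        rw [neg_nonneg]
        apply div_nonpos_of_nonpos_of_nonneg (by norm_num) (by positivity)
      nlinarith [show (0 : ℝ) < (Fintype.card F).factorial by positivity]
    · have hstep := capPerms_step hx hA
      have hj1 : (1 : ℝ) ≤ A.card := by exact_mod_cast card_pos.2 hA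
      have hjq : (A.card : ℝ) + 1 ≤ Fintype.card F := by
        have : (insert x A).card ≤ Fintype.card F := card_le_univ _
        rw [card_insert_of_notMem hx] at this
        exact_mod_cast this
      set j : ℝ := (A.card : ℝ) with hj
      set q : ℝ := (Fintype.card F : ℝ) with hqd
      set P : ℝ := ((capPerms A).card : ℝ) with hP
      set P' : ℝ := ((capPerms (insert x A)).card : ℝ) with hP'
      have hPn : 0 ≤ P := by rw [hP]; positivity
      have hqj : 0 < q - j := by linarith
      have h1 : P' ≤ P * Real.exp (-((j - 1) / q)) := by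
        have e1 : 1 - (j - 1) / q ≤ Real.exp (-((j - 1) / q)) := by
          have := Real.add_one_le_exp (-((j - 1) / q))
          linarith
        have e2 : (q - (2 * j - 1)) ≤ (q - j) * (1 - (j - 1) / q) := by
          have e3 : (j - 1) / q * q = j - 1 := by field_simp
          have e4 : 0 ≤ (j - 1) / q := by
            apply div_nonneg <;> linarith
          nlinarith
        have e5 : (q - j) * P' ≤ (q - j) * (P * Real.exp (-((j - 1) / q))) := by
          calc (q - j) * P' ≤ (q - (2 * j - 1)) * P := hstep
            _ ≤ (q - j) * (1 - (j - 1) / q) * P := mul_le_mul_of_nonneg_right e2 hPn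
            _ = (q - j) * (P * (1 - (j - 1) / q)) := by ring
            _ ≤ (q - j) * (P * Real.exp (-((j - 1) / q))) := by
                apply mul_le_mul_of_nonneg_left _ hqj.le
                exact mul_le_mul_of_nonneg_left e1 hPn
        exact le_of_mul_le_mul_left e5 hqj
      refine h1.trans ?_
      have h2 := mul_le_mul_of_nonneg_right ih (Real.exp_pos (-((j - 1) / q))).le
      refine h2.trans (le_of_eq ?_)
      rw [mul_assoc, ← Real.exp_add]
      congr 2
      push_cast
      field_simp
      ring

end Pool.Agent.Y14.SC
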